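import Pool.Agent.helper61.Y2.Spec

set_option autoImplicit false

/-!
# Project Y2 (MP_752b23_lc), row D4
-/

namespace H61.Y2

open H61.Yorioka Cardinal

lemma D4_one (a : ℕ) : KK a + 1 ≤ 2 ^ 2 ^ (a + 1) := by
  have h1 : (1 : ℕ) ≤ 2 ^ a := Nat.one_le_two_pow
  have h2 : (1 : ℕ) ≤ 2 ^ 2 ^ a := Nat.one_le_two_pow
  have h3 : (2 : ℕ) ^ (2 ^ a + 1) ≤ 2 ^ 2 ^ (a + 1) := by
    apply Nat.pow_le_pow_right (by norm_num)
    rw [pow_succ]; omega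
  have h4 : (2 : ℕ) ^ (2 ^ a + 1) = 2 ^ 2 ^ a * 2 := pow_succ _ _
  unfold KK
  omega

theorem D4 (hD2 : D2_stmt) : D4_stmt := by
  intro e D hD
  obtain ⟨-, m, hm⟩ := hD2 e D hD
  refine ⟨m, fun i hi => ?_⟩
  have hterm : ∀ j ∈ JJ D i, (KK (j + (D j / 2 + 1)) + 1) ^ (2 ^ e j) ≤ 2 ^ 2 ^ 2 ^ i := by
    intro j hj
    obtain ⟨-, hji⟩ := Finset.mem_filter.mp hj
    have hmj : m ≤ j := by omega
    have h1 := (hm j hmj).1
    rw [hji] at h1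
    calc (KK (j + (D j / 2 + 1)) + 1) ^ (2 ^ e j) ≤ (2 ^ 2 ^ (j + (D j / 2 + 1) + 1)) ^ (2 ^ e j) :=
          Nat.pow_le_pow_left (D4_one _) _
      _ = 2 ^ 2 ^ (j + (D j / 2 + 1) + 1 + e j) := by
          rw [← pow_mul, ← pow_add]
      _ ≤ 2 ^ 2 ^ 2 ^ i := by
          apply Nat.pow_le_pow_right (by norm_num)
          apply Nat.pow_le_pow_right (by norm_num)
          omega
  have hcard : (JJ D i).card ≤ 2 ^ i + 1 := by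
    refine le_trans (Finset.card_filter_le _ _) ?_
    rw [Finset.card_range]
  have hsq : (2 ^ i + 1) * 2 ^ 2 ^ i ≤ 2 ^ 2 ^ (i + 1) := by
    have h1 : 2 ^ i + 1 ≤ 2 ^ (i + 1) := by
      have : (1 : ℕ) ≤ 2 ^ i := Nat.one_le_two_pow
      rw [pow_succ]; omega
    have h2 : (2 : ℕ) ^ (i + 1) ≤ 2 ^ 2 ^ i := by
      apply Nat.pow_le_pow_right (by norm_num)
      exact Nat.lt_two_pow_self
    have h3 : (2 : ℕ) ^ 2 ^ (i + 1) = 2 ^ 2 ^ i * 2 ^ 2 ^ i := by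
      rw [← pow_add, ← two_mul, pow_succ, mul_comm 2]
    rw [h3]
    exact Nat.mul_le_mul_right _ (h1.trans h2)
  calc ∏ j ∈ JJ D i, (KK (j + (D j / 2 + 1)) + 1) ^ (2 ^ e j) ≤ ∏ _j ∈ JJ D i, 2 ^ 2 ^ 2 ^ i :=
        Finset.prod_le_prod' hterm
    _ = (2 ^ 2 ^ 2 ^ i) ^ (JJ D i).card := by rw [Finset.prod_const]
    _ = 2 ^ ((JJ D i).card * 2 ^ 2 ^ i) := by rw [← pow_mul, mul_comm]
    _ ≤ 2 ^ 2 ^ 2 ^ (i + 1) := by
        apply Nat.pow_le_pow_right (by norm_num)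
        exact le_trans (Nat.mul_le_mul_right _ hcard) hsq
    _ = 2 ^ KK (i + 1) := rfl

end H61.Y2
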