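import Pool.Agent.helper61.Y2.Spec

set_option autoImplicit false

/-!
# Project Y2 (MP_752b23_lc), row E1
-/

namespace H61.Y2

open H61.Yorioka Cardinal

theorem E1 : E1_stmt := by
  intro f e _ he
  constructor
  · intro j s hs
    unfold AE at hs
    split_ifs at hs with h
    · obtain ⟨p, hp, rfl⟩ := Finset.mem_image.mp hs
      rw [mem_level] at hp
      rw [List.length_append, List.length_replicate, hp]
      omega
    · simp at hs
  · intro k
    obtain ⟨m, hm⟩ := he k
    refine ⟨m, fun j hj => ?_⟩
    have h1 : (AE f e j).card ≤ 2 ^ e j := by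
      unfold AE
      split_ifs with h
      · refine le_trans Finset.card_image_le ?_
        rw [card_level]
      · simp
    calc (AE f e j).card ^ k ≤ (2 ^ e j) ^ k := Nat.pow_le_pow_left h1 k
      _ = 2 ^ (k * e j) := by rw [← pow_mul, mul_comm]
      _ ≤ 2 ^ 2 ^ j := Nat.pow_le_pow_right (by norm_num) (hm j hj)

end H61.Y2
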