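import Pool.Agent.helper61.Y2.Spec

set_option autoImplicit false

/-!
# Project Y2 (MP_752b23_lc), row OB
-/

namespace H61.Y2

open H61.Yorioka Cardinal

lemma OB_code (f : ℕ → ℕ) (α : Type) (V : ℕ → Finset α) (m : ℕ)
    (hV : ∀ i ≥ m, (V i).card ≤ 2 ^ f (KK i)) (i : ℕ) :
    ∃ code : α → List Bool, m ≤ i →
      (∀ v ∈ V i, (code v).length = f (KK i)) ∧ Set.InjOn code (V i : Set α) := by
  classical
  by_cases hi : m ≤ i
  · have h1 : (V i).card ≤ (level (f (KK i))).card := by
      rw [card_level]; exact hV i hi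
    have h2 : Fintype.card (V i) ≤ Fintype.card (level (f (KK i))) := by
      rw [Fintype.card_coe, Fintype.card_coe]; exact h1
    obtain ⟨e⟩ := Function.Embedding.nonempty_of_card_le h2
    refine ⟨fun v => if h : v ∈ V i then (e ⟨v, h⟩ : List Bool) else [], fun _ => ⟨fun v hv => ?_, ?_⟩⟩
    · simp only [dif_pos hv]
      exact mem_level.mp (e ⟨v, hv⟩).2
    · intro v hv w hw hvw
      have hv' : v ∈ V i := hv
      have hw' : w ∈ V i := hw
      simp only [dif_pos hv', dif_pos hw'] at hvw
      have h3 := e.injective (Subtype.ext hvw)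
      exact congrArg Subtype.val h3
  · exact ⟨fun _ => [], fun h => absurd h hi⟩

theorem OB (hL2 : L2_stmt) (hSQT : SQT_stmt) : OB_stmt := by
  classical
  intro f α V hf ⟨m, hV⟩
  choose code hcode using OB_code f α V m hV
  set a : (ℕ → α) → (ℕ → Finset (List Bool)) := fun o i =>
    if m ≤ i ∧ o i ∈ V i then {code i (o i)} else ∅ with ha
  refine hSQT (ℕ → α) (ℕ → Finset α) (ℕ → Finset (List Bool)) (ℕ → Finset (List Bool))
    (yoriokaIdeal f) rV (rS f) 3 0 a {o : ℕ → α | ∃ m, ∀ i ≥ m, o i ∈ V i} {A | Sl f A} (hL2 f hf) ?_ ?_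
  · intro o _
    show Sl f (a o)
    constructor
    · intro j s hs
      simp only [ha] at hs
      split_ifs at hs with h
      · rw [Finset.mem_singleton] at hs
        rw [hs]
        exact ((hcode j) h.1).1 (o j) h.2
      · simp at hs
    · intro k
      refine ⟨0, fun j _ => ?_⟩
      have h1 : (a o j).card ≤ 1 := by
        simp only [ha]
        split_ifs <;> simp
      calc (a o j).card ^ k ≤ 1 ^ k := Nat.pow_le_pow_left h1 k
        _ = 1 := one_pow k
        _ ≤ KK j := Nat.one_le_two_pow
  · intro S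
    refine ⟨fun i => (V i).filter (fun v => code i v ∈ S i), ?_⟩
    rintro x ⟨⟨m₁, hx⟩, hS, m₂, hsub⟩
    constructor
    · intro k
      obtain ⟨m₃, h3⟩ := hS.wid k
      refine ⟨max m m₃, fun i hi => ?_⟩
      have hi1 : m ≤ i := le_trans (le_max_left _ _) hi
      have hi3 : m₃ ≤ i := le_trans (le_max_right _ _) hi
      refine le_trans (Nat.pow_le_pow_left ?_ k) (h3 i hi3)
      apply Finset.card_le_card_of_injOn (code i)
      · intro v hv
        exact (Finset.mem_filter.mp hv).2
      · exact ((hcode i) hi1).2.mono fun v hv => (Finset.mem_filter.mp hv).1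
    · refine ⟨max m (max m₁ m₂), fun i hi => ?_⟩
      have hi0 : m ≤ i := le_trans (le_max_left _ _) hi
      have hi1 : m₁ ≤ i := le_trans (le_trans (le_max_left _ _) (le_max_right _ _)) hi
      have hi2 : m₂ ≤ i := le_trans (le_trans (le_max_right _ _) (le_max_right _ _)) hi
      have hxi := hx i hi1
      have h4 := hsub i hi2
      have h5 : a x i = {code i (x i)} := by
        simp only [ha]
        rw [if_pos ⟨hi0, hxi⟩]
      rw [h5, Finset.singleton_subset_iff] at h4
      exact Finset.mem_filter.mpr ⟨hxi, h4⟩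

end H61.Y2
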